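import Pool.Agent.Helper94.US.Stm
import Pool.Agent.H692R2.USS.Basic

/-!
# The Leibniz rule for `C(n, j) v` under polynomials in the shift (pieces E1b and F1b)
-/

set_option autoImplicit false

namespace Pool.Agent.Helper43.US

open Polynomial Finset Pool.Agent.H692R2.USS

/-- `C(n, j) v n` -/
def bm (j : ℕ) (v : ℕ → ℤ) : ℕ → ℤ := fun n => (n.choose j : ℤ) * v n

theorem bm_add (j : ℕ) (v w : ℕ → ℤ) : bm j (v + w) = bm j v + bm j w := by
  funext n; simp only [bm, Pi.add_apply]; ring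

theorem bm_zero (j : ℕ) : bm j 0 = 0 := by
  funext n; simp [bm]

theorem bm_smul (j : ℕ) (c : ℤ) (v : ℕ → ℤ) : bm j (c • v) = c • bm j v := by
  funext n; simp only [bm, Pi.smul_apply, smul_eq_mul]; ring

/-- **Leibniz rule** -/
theorem leib (P : ℤ[X]) (j : ℕ) (v : ℕ → ℤ) :
    aeval (E ℤ) P (bm j v) =
      ∑ i ∈ range (j + 1), bm (j - i) (aeval (E ℤ) (X ^ i * hasseDeriv i P) v) := by
  induction P using Polynomial.induction_on' with
  | add p q hp hq =>
    rw [map_add, LinearMap.add_apply, hp, hq, ← Finset.sum_add_distrib]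
    refine Finset.sum_congr rfl fun i _ => ?_
    rw [map_add, mul_add, map_add, LinearMap.add_apply, bm_add]
  | monomial n a =>
    funext k
    have h1 : ∀ i : ℕ, aeval (E ℤ) (X ^ i * hasseDeriv i (monomial n a)) v k =
        (n.choose i : ℤ) * a * v (k + n) := by
      intro i
      rw [hasseDeriv_monomial]
      by_cases hi : i ≤ n
      · rw [X_pow_mul_monomial, Nat.sub_add_cancel hi, aeval_monomial]
        simp [Module.End.mul_apply]
        ring
      · rw [Nat.choose_eq_zero_of_lt (by omega)]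
        simp
    rw [Finset.sum_apply]
    have h2 : ∀ i ∈ range (j + 1), bm (j - i)
        (aeval (E ℤ) (X ^ i * hasseDeriv i (monomial n a)) v) k =
        ((n.choose i : ℤ) * (k.choose (j - i) : ℤ)) * (a * v (k + n)) := by
      intro i _
      rw [bm, h1]; ring
    rw [Finset.sum_congr rfl h2, ← Finset.sum_mul]
    have h3 : ∑ i ∈ range (j + 1), ((n.choose i : ℤ) * (k.choose (j - i) : ℤ)) =
        ((n + k).choose j : ℤ) := by
      rw [Nat.add_choose_eq, Finset.Nat.sum_antidiagonal_eq_sum_range_succ_mk]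
      push_cast
      rfl
    rw [h3, aeval_monomial]
    simp only [Module.End.mul_apply, Module.algebraMap_end_apply, Pi.smul_apply, smul_eq_mul,
      E_pow_apply, bm]
    rw [add_comm n k]; ring

/-- `u` is a combination of `C(n, i) v_i`, `i < j`, with `v_i` killed by `g` -/
def InF (g : ℤ[X]) (j : ℕ) (u : ℕ → ℤ) : Prop :=
  ∃ w : ℕ → ℕ → ℤ, (∀ i < j, Ann g (w i)) ∧ u = ∑ i ∈ range j, bm i (w i)

theorem ann_zero (g : ℤ[X]) : Ann g (0 : ℕ → ℤ) := by
  unfold Ann; rw [map_zero]

theorem InF.zero (g : ℤ[X]) (j : ℕ) : InF g j 0 :=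
  ⟨fun _ => 0, fun _ _ => ann_zero g, by simp [bm_zero]⟩

theorem InF.add {g : ℤ[X]} {j : ℕ} {u v : ℕ → ℤ} (hu : InF g j u) (hv : InF g j v) :
    InF g j (u + v) := by
  obtain ⟨w, hw, rfl⟩ := hu
  obtain ⟨w', hw', rfl⟩ := hv
  refine ⟨fun i => w i + w' i, fun i hi => (hw i hi).add (hw' i hi), ?_⟩
  rw [← Finset.sum_add_distrib]
  exact Finset.sum_congr rfl fun i _ => (bm_add _ _ _).symm

theorem InF.sum {ι : Type*} {g : ℤ[X]} {j : ℕ} (s : Finset ι) {u : ι → ℕ → ℤ}
    (hu : ∀ i ∈ s, InF g j (u i)) : InF g j (∑ i ∈ s, u i) := by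
  classical
  induction s using Finset.induction_on with
  | empty => simpa using InF.zero g j
  | insert a s ha ih =>
    rw [Finset.sum_insert ha]
    exact (hu a (Finset.mem_insert_self _ _)).add
      (ih fun i hi => hu i (Finset.mem_insert_of_mem hi))

theorem InF.bm {g : ℤ[X]} {j i : ℕ} (hi : i < j) {v : ℕ → ℤ} (hv : Ann g v) :
    InF g j (bm i v) := by
  refine ⟨fun k => if k = i then v else 0, fun k _ => ?_, ?_⟩
  · by_cases hk : k = i
    · simpa [hk] using hv
    · simpa [hk] using ann_zero g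
  · rw [Finset.sum_eq_single i]
    · simp
    · intro k _ hk
      simp [hk, bm_zero]
    · intro h
      exact absurd (Finset.mem_range.2 hi) h

/-- one step on `C(n, j+1) w` -/
theorem stepA (g : ℤ[X]) (j : ℕ) {w : ℕ → ℤ} (hw : Ann g w) :
    ∃ u', InF g j u' ∧
      aeval (E ℤ) g (bm (j + 1) w) = bm j (aeval (E ℤ) (X * derivative g) w) + u' := by
  refine ⟨∑ i ∈ range j, bm (j - 1 - i) (aeval (E ℤ) (X ^ (i + 2) * hasseDeriv (i + 2) g) w), ?_, ?_⟩
  · refine InF.sum _ fun i hi => ?_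
    rw [Finset.mem_range] at hi
    exact InF.bm (by omega) (hw.aeval _)
  · rw [leib, Finset.sum_range_succ', Finset.sum_range_succ']
    have h0 : Pool.Agent.Helper43.US.bm (j + 1 - 0) (aeval (E ℤ) (X ^ 0 * hasseDeriv 0 g) w) = 0 := by
      have h1 : aeval (E ℤ) g w = 0 := hw
      rw [hasseDeriv_zero', pow_zero, one_mul, h1, bm_zero]
    have h1 : Pool.Agent.Helper43.US.bm (j + 1 - (0 + 1)) (aeval (E ℤ) (X ^ (0 + 1) * hasseDeriv (0 + 1) g) w) =
        Pool.Agent.Helper43.US.bm j (aeval (E ℤ) (X * derivative g) w) := by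
      rw [zero_add, hasseDeriv_one', pow_one, Nat.add_sub_cancel]
    rw [h0, h1, add_zero, add_comm]
    congr 1
    refine Finset.sum_congr rfl fun i hi => ?_
    rw [Finset.mem_range] at hi
    rw [show j + 1 - (i + 1 + 1) = j - 1 - i by omega]

theorem InF.mono {g : ℤ[X]} {j k : ℕ} (h : j ≤ k) {u : ℕ → ℤ} (hu : InF g j u) : InF g k u := by
  obtain ⟨w, hw, rfl⟩ := hu
  refine InF.sum _ fun i hi => ?_
  rw [Finset.mem_range] at hi
  exact InF.bm (by omega) (hw i hi)

/-- `g(E)` lowers the filtration -/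
theorem InF.step {g : ℤ[X]} {j : ℕ} {u : ℕ → ℤ} (hu : InF g (j + 1) u) :
    InF g j (aeval (E ℤ) g u) := by
  obtain ⟨w, hw, rfl⟩ := hu
  rw [map_sum]
  refine InF.sum _ fun i hi => ?_
  rw [Finset.mem_range] at hi
  rcases Nat.eq_zero_or_pos i with h0 | h0
  · subst h0
    have h1 : Pool.Agent.Helper43.US.bm 0 (w 0) = w 0 := by
      funext n; simp [Pool.Agent.Helper43.US.bm]
    have h2 : aeval (E ℤ) g (w 0) = 0 := hw 0 hi
    rw [h1, h2]
    exact InF.zero g j
  · obtain ⟨i', rfl⟩ : ∃ i', i = i' + 1 := ⟨i - 1, by omega⟩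
    obtain ⟨u', hu', h⟩ := stepA g i' (hw _ hi)
    rw [h]
    exact (InF.bm (by omega) ((hw _ hi).aeval _)).add (hu'.mono (by omega))

theorem InF.pow {g : ℤ[X]} (k : ℕ) {j : ℕ} {u : ℕ → ℤ} (hu : InF g (j + k) u) :
    InF g j (aeval (E ℤ) (g ^ k) u) := by
  induction k generalizing u with
  | zero => simpa using hu
  | succ k ih =>
    rw [pow_succ, map_mul, Module.End.mul_apply]
    exact ih (InF.step (by rwa [← add_assoc] at hu))

theorem InF.ann {g : ℤ[X]} {k : ℕ} {u : ℕ → ℤ} (hu : InF g k u) : Ann (g ^ k) u := by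
  obtain ⟨w, _, h⟩ := InF.pow (j := 0) k (by simpa using hu)
  unfold Ann
  rw [h]; simp

/-- the leading term -/
theorem lead (g : ℤ[X]) (k : ℕ) : ∀ (m : ℕ) (v : ℕ → ℤ), Ann g v →
    ∃ u', InF g m u' ∧ aeval (E ℤ) (g ^ k) (bm (m + k) v) =
      bm m (aeval (E ℤ) ((X * derivative g) ^ k) v) + u' := by
  induction k with
  | zero =>
    intro m v _
    exact ⟨0, InF.zero g m, by simp⟩
  | succ k ih =>
    intro m v hv
    obtain ⟨u1, hu1, h1⟩ := ih (m + 1) v hv
    obtain ⟨u2, hu2, h2⟩ := stepA g m (hv.aeval ((X * derivative g) ^ k))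
    refine ⟨u2 + aeval (E ℤ) g u1, hu2.add hu1.step, ?_⟩
    rw [pow_succ' g, map_mul, Module.End.mul_apply, show m + (k + 1) = m + 1 + k by ring, h1, map_add,
      h2, pow_succ' (X * derivative g), map_mul (aeval (E ℤ)) (X * derivative g),
      Module.End.mul_apply, add_assoc]

theorem lead0 (g : ℤ[X]) (k : ℕ) (v : ℕ → ℤ) (hv : Ann g v) :
    aeval (E ℤ) (g ^ k) (bm k v) = aeval (E ℤ) ((X * derivative g) ^ k) v := by
  obtain ⟨u', ⟨w, _, h⟩, h2⟩ := lead g k 0 v hv
  rw [zero_add] at h2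
  rw [h2, h]
  funext n; simp [bm]

/-- polynomials congruent modulo `g` act in the same way on the kernel of `g(E)` -/
theorem act_congr {g a b c : ℤ[X]} (h : a = b + c * g) {v : ℕ → ℤ} (hv : Ann g v) :
    aeval (E ℤ) a v = aeval (E ℤ) b v := by
  have h1 : aeval (E ℤ) g v = 0 := hv
  rw [h, map_add, LinearMap.add_apply, map_mul, Module.End.mul_apply, h1, map_zero, add_zero]

theorem t_E1b : Pool.Agent.Helper94.US.E1b := by
  intro g s t rr hg hg0 hst hrr m hm
  -- the polynomial `y = t q` with `X g' y ≡ - rr g(0)` modulo `g`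
  obtain ⟨q, hq⟩ : ∃ q : ℤ[X], g = X * q + C (g.coeff 0) :=
    ⟨g.divX, (X_mul_divX_add g).symm⟩
  have hkey : ∃ c : ℤ[X], (X * derivative g) * (t * q) = C (-(rr * g.coeff 0)) + c * g := by
    refine ⟨C rr - s * (X * q), ?_⟩
    have h1 : t * derivative g = C rr - s * g := by rw [← hst]; ring
    have h2 : X * q = g - C (g.coeff 0) := by
      conv_rhs => rw [hq]
      simp
    calc (X * derivative g) * (t * q) = (t * derivative g) * (X * q) := by ring
      _ = (C rr - s * g) * (g - C (g.coeff 0)) := by rw [h1, h2]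
      _ = C (-(rr * g.coeff 0)) + (C rr - s * (g - C (g.coeff 0))) * g := by
          rw [C_neg, C_mul]; ring
      _ = _ := by rw [h2]
  have hkeyp : ∀ k : ℕ, ∃ c : ℤ[X], ((X * derivative g) * (t * q)) ^ k =
      C ((-(rr * g.coeff 0)) ^ k) + c * g := by
    intro k
    obtain ⟨c, hc⟩ := hkey
    have h1 : g ∣ ((X * derivative g) * (t * q)) ^ k - C (-(rr * g.coeff 0)) ^ k := by
      refine Dvd.dvd.trans ?_ (sub_dvd_pow_sub_pow _ _ k)
      exact ⟨c, by rw [hc]; ring⟩
    obtain ⟨c', hc'⟩ := h1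
    refine ⟨c', ?_⟩
    rw [C_pow]
    linear_combination hc'
  have hc0 : ∀ k : ℕ, (-(rr * g.coeff 0)) ^ k ≠ 0 := fun k =>
    pow_ne_zero _ (neg_ne_zero.2 (mul_ne_zero hrr hg0))
  induction m, hm using Nat.le_induction with
  | base =>
    intro u hu
    refine ⟨1, fun _ => u, le_refl _, fun j _ => by simpa using hu, fun n => by simp⟩
  | succ m hm ih =>
    intro u hu
    have hu1 : Ann g (aeval (E ℤ) (g ^ m) u) := by
      unfold Ann at *
      rw [← Module.End.mul_apply, ← map_mul, ← pow_succ']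
      exact hu
    set c : ℤ := (-(rr * g.coeff 0)) ^ m with hc
    set w : ℕ → ℤ := aeval (E ℤ) ((t * q) ^ m) (aeval (E ℤ) (g ^ m) u) with hw
    have hwA : Ann g w := hu1.aeval _
    have h1 : aeval (E ℤ) (g ^ m) (bm m w) = c • aeval (E ℤ) (g ^ m) u := by
      rw [lead0 g m w hwA, hw, ← Module.End.mul_apply, ← map_mul, ← mul_pow]
      obtain ⟨c', hc'⟩ := hkeyp m
      rw [act_congr hc' hu1, aeval_C, Module.algebraMap_end_apply]
    have h2 : Ann (g ^ m) (c • u - bm m w) := by
      unfold Ann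
      rw [map_sub, map_smul, h1, sub_self]
    obtain ⟨D', v, hD', hv, hvv⟩ := ih (c • u - bm m w) h2
    -- the sign of `c`
    have hcc : c * SignType.sign c = |c| := by
      rw [mul_comm]; exact sign_mul_self c
    refine ⟨D' * c.natAbs, fun j => if j < m then ((SignType.sign c : ℤ)) • v j else
      (((SignType.sign c : ℤ)) * D') • w, ?_, ?_, ?_⟩
    · have : 1 ≤ c.natAbs := Int.natAbs_pos.2 (hc0 m)
      exact Nat.one_le_iff_ne_zero.2 (Nat.mul_ne_zero (by omega) (by omega))
    · intro j hj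
      by_cases hjm : j < m
      · simp only [hjm, if_true]
        exact (hv j hjm).smul _
      · simp only [hjm, if_false]
        exact hwA.smul _
    · intro n
      rw [Finset.sum_range_succ]
      have h3 : ∑ j ∈ range m, (n.choose j : ℤ) * (if j < m then ((SignType.sign c : ℤ)) • v j else
          (((SignType.sign c : ℤ)) * D') • w) n = (SignType.sign c : ℤ) * ((D' : ℤ) *
            (c • u - bm m w) n) := by
        rw [hvv n, Finset.mul_sum]
        refine Finset.sum_congr rfl fun j hj => ?_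
        rw [Finset.mem_range] at hj
        simp only [hj, if_true, Pi.smul_apply, smul_eq_mul]
        ring
      rw [h3]
      simp only [lt_irrefl, if_false, Pi.smul_apply, Pi.sub_apply, smul_eq_mul, bm]
      push_cast
      rw [← hcc]
      ring

theorem t_F1b : Pool.Agent.Helper94.US.F1b := by
  intro χ g u v m D hχ hg hu hv h0
  have h1 : Ann (χ * g ^ m) (D • u) := (hu.smul D).mul_right _
  have h2 : Ann (χ * g ^ m) (∑ j ∈ range m, bm j (v j)) :=
    Ann.mul_left (InF.ann ⟨v, hv, rfl⟩) _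
  have h3 := Ann.ext (hχ.mul (hg.pow m)) h1 h2 (fun n hn => by
    rw [hχ.natDegree_mul (hg.pow m), hg.natDegree_pow] at hn
    have := h0 n hn
    simpa [bm, Finset.sum_apply] using this)
  intro n
  simpa [bm, Finset.sum_apply] using h3 n

end Pool.Agent.Helper43.US
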